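import Pool.Agent.Work.MP_db9399_vt.Interface

/-!
# MP_db9399, PHASE 2, block VOUT (helper14): one colouring of the outer vertices
-/

set_option autoImplicit false

namespace Pool.Agent.Work.MP_db9399_vt.helper14

open Finset Classical
open Pool.Agent.Work.MP_db9399_all (nb mis)
open Pool.Agent.Work.MP_db9399_vt

universe u

section graph
variable {V : Type u} [Fintype V]

/-- the graph of one class -/
def HG (G Cf C2 : SimpleGraph V) (A : Finset V) : SimpleGraph V where
  Adj v w := v ∈ A ∧ w ∈ A ∧ (G.Adj v w ∨ Cf.Adj v w ∨ C2.Adj v w)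
  symm := ⟨by
    rintro v w ⟨h1, h2, h3⟩
    exact ⟨h2, h1, h3.imp (fun h => h.symm) (fun h => h.imp (fun h => h.symm) (fun h => h.symm))⟩⟩
  loopless := ⟨by
    rintro v ⟨_, _, h | h | h⟩ <;> exact h.ne rfl⟩

theorem mem_nb (G : SimpleGraph V) (v w : V) : w ∈ nb G v ↔ G.Adj v w := by
  unfold nb
  simp

theorem mem_nbH (G Cf C2 : SimpleGraph V) (A : Finset V) (v w : V) :
    w ∈ nb (HG G Cf C2 A) v ↔ v ∈ A ∧ w ∈ A ∧ (G.Adj v w ∨ Cf.Adj v w ∨ C2.Adj v w) := by
  rw [mem_nb]
  rfl

theorem nbH_out (G Cf C2 : SimpleGraph V) (A : Finset V) (v : V) (hv : v ∉ A) :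
    nb (HG G Cf C2 A) v = ∅ := by
  ext w
  rw [mem_nbH]
  simp [hv]

theorem nbH_card (G Cf C2 : SimpleGraph V) (A : Finset V) (v : V) :
    ((nb (HG G Cf C2 A) v).card : ℝ) ≤
      (nb G v ∩ A).card + (nb Cf v ∩ A).card + (nb C2 v).card := by
  have h : nb (HG G Cf C2 A) v ⊆ ((nb G v ∩ A) ∪ (nb Cf v ∩ A)) ∪ nb C2 v := by
    intro w hw
    rw [mem_nbH] at hw
    obtain ⟨_, h2, h3⟩ := hw
    rw [mem_union, mem_union, mem_inter, mem_inter, mem_nb, mem_nb, mem_nb]
    rcases h3 with h | h | h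
    · exact Or.inl (Or.inl ⟨h, h2⟩)
    · exact Or.inl (Or.inr ⟨h, h2⟩)
    · exact Or.inr h
  have h1 := (card_le_card h).trans ((card_union_le _ _).trans
    (Nat.add_le_add_right (card_union_le _ _) _))
  exact_mod_cast h1

omit [Fintype V] in
theorem mis_mono (G : SimpleGraph V) {A B : Finset V} (h : A ⊆ B) : mis G A ⊆ mis G B := by
  unfold mis
  exact filter_subset_filter _ (product_subset_product h h)

omit [Fintype V] in
/-- counting of pairs through their first entry -/
theorem pairs_le (S : Finset V) (T : V → Finset V) (y : ℝ)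
    (h : ∀ a ∈ S, ((T a).card : ℝ) ≤ y) :
    (((S.sigma T)).card : ℝ) ≤ S.card * y := by
  rw [card_sigma]
  push_cast
  calc ∑ a ∈ S, ((T a).card : ℝ) ≤ ∑ _a ∈ S, y := sum_le_sum h
    _ = S.card * y := by rw [sum_const, nsmul_eq_mul]

omit [Fintype V] in
theorem pairs_ge (S : Finset V) (T : V → Finset V) (y : ℝ)
    (h : ∀ a ∈ S, y ≤ ((T a).card : ℝ)) :
    S.card * y ≤ (((S.sigma T)).card : ℝ) := by
  rw [card_sigma]
  push_cast
  calc S.card * y = ∑ _a ∈ S, y := by rw [sum_const, nsmul_eq_mul]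
    _ ≤ ∑ a ∈ S, ((T a).card : ℝ) := sum_le_sum h

/-- a vertex of the class is sparse in the new graph or has slack -/
theorem key (G Cf C2 : SimpleGraph V) (A : Finset V) (x c ξ κ' ε : ℝ) (hc : 0 < c) (hc1 : c ≤ 1)
    (hξ : 0 < ξ) (hξ1 : ξ ≤ 1) (hκ : 0 < κ') (hκξ : κ' ≤ ξ / 4) (hκc : κ' ≤ c / 100)
    (hε : 0 < ε) (hεκ : ε ≤ κ' / 8) (hx : 8 / ξ ≤ x)
    (hC2 : ∀ v ∈ A, ((nb C2 v).card : ℝ) ≤ ε * x)
    (hbig : ∀ v ∈ A, (∃ u ∈ A, Cf.Adj v u) →
      ((nb G v ∩ A).card : ℝ) + (nb Cf v ∩ A).card ≤ (1 - ξ) * x)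
    (w : V) (hw : w ∈ A) (hG : ((nb G w ∩ A).card : ℝ) ≤ (1 + ε) * x)
    (hs : ((nb G w ∩ A).card : ℝ) ≤ (1 - κ') * x ∨ c * x ^ 2 ≤ ((mis G (nb G w ∩ A)).card : ℝ)) :
    c * ξ / 64 * x ^ 2 ≤ ((mis (HG G Cf C2 A) (nb (HG G Cf C2 A) w)).card : ℝ) ∨
      ((nb (HG G Cf C2 A) w).card : ℝ) ≤ (1 - κ' / 2) * x := by
  have hx0 : 0 < x := lt_of_lt_of_le (by positivity) hx
  have hx8 : 8 ≤ ξ * x := by
    rw [div_le_iff₀ hξ] at hx
    linarith
  have hεx : 0 < ε * x := by positivity
  have e1 : ε * x ≤ κ' / 8 * x := mul_le_mul_of_nonneg_right hεκ hx0.le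
  have e2 : κ' * x ≤ ξ / 4 * x := mul_le_mul_of_nonneg_right hκξ hx0.le
  have e3 : κ' * x ≤ c / 100 * x := mul_le_mul_of_nonneg_right hκc hx0.le
  have hnb := nbH_card G Cf C2 A w
  have hC2w := hC2 w hw
  by_cases hB : ∃ u ∈ A, Cf.Adj w u
  · right
    have h1 := hbig w hw hB
    nlinarith
  have hCf0 : nb Cf w ∩ A = ∅ := by
    ext u
    simp only [mem_inter, mem_nb, notMem_empty, iff_false]
    rintro ⟨h1, h2⟩
    exact hB ⟨u, h2, h1⟩
  rw [hCf0, card_empty] at hnb
  push_cast at hnb
  rcases hs with hs | hs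
  · right
    nlinarith
  set Aw := nb G w ∩ A with hAw
  set M := nb (HG G Cf C2 A) w with hM
  have hAM : Aw ⊆ M := by
    intro u hu
    rw [hAw, mem_inter, mem_nb] at hu
    rw [hM, mem_nbH]
    exact ⟨hw, hu.2, Or.inl hu.1⟩
  have hAA : ∀ a ∈ Aw, a ∈ A := fun a ha => (mem_inter.1 ha).2
  have hMA : ∀ a ∈ M, a ∈ A := fun a ha => ((mem_nbH G Cf C2 A w a).1 ha).2.1
  set B := Aw.filter (fun a => ∃ u ∈ A, Cf.Adj a u) with hBdef
  by_cases hBc : (B.card : ℝ) ≤ c / 8 * x
  · left
    -- pairs adjacent in `Cf` or in `C2`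
    have hsub : mis G Aw ⊆ mis (HG G Cf C2 A) Aw ∪
        ((B.sigma (fun a => nb Cf a ∩ A)).image (fun p => (p.1, p.2)) ∪
          (Aw.sigma (fun a => nb C2 a)).image (fun p => (p.1, p.2))) := by
      rintro ⟨a, b⟩ hab
      unfold mis at hab ⊢
      simp only [mem_filter, mem_product] at hab
      obtain ⟨⟨ha, hb⟩, hne, hnadj⟩ := hab
      simp only [mem_union, mem_filter, mem_product, mem_image, mem_sigma]
      by_cases h1 : Cf.Adj a b
      · right; left
        refine ⟨⟨a, b⟩, ⟨mem_filter.2 ⟨ha, b, hAA b hb, h1⟩, mem_inter.2 ⟨(mem_nb _ _ _).2 h1, hAA b hb⟩⟩, rfl⟩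
      · by_cases h2 : C2.Adj a b
        · right; right
          exact ⟨⟨a, b⟩, ⟨ha, (mem_nb _ _ _).2 h2⟩, rfl⟩
        · left
          refine ⟨⟨ha, hb⟩, hne, ?_⟩
          rintro ⟨_, _, h | h | h⟩
          · exact hnadj h
          · exact h1 h
          · exact h2 h
    have h1 := (card_le_card hsub).trans ((card_union_le _ _).trans
      (Nat.add_le_add_left (card_union_le _ _) _))
    have h2 : (((B.sigma (fun a => nb Cf a ∩ A)).image (fun p => (p.1, p.2))).card : ℝ) ≤
        c / 8 * x ^ 2 := by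
      have h3 : (((B.sigma (fun a => nb Cf a ∩ A)).image (fun p => (p.1, p.2))).card : ℝ) ≤
          ((B.sigma (fun a => nb Cf a ∩ A)).card : ℝ) := by exact_mod_cast card_image_le
      refine h3.trans ((pairs_le B _ x ?_).trans ?_)
      · intro a ha
        rw [hBdef, mem_filter] at ha
        have h4 := hbig a (hAA a ha.1) ha.2
        have h5 : (0 : ℝ) ≤ ((nb G a ∩ A).card : ℝ) := Nat.cast_nonneg _
        nlinarith
      · nlinarith
    have h3 : (((Aw.sigma (fun a => nb C2 a)).image (fun p => (p.1, p.2))).card : ℝ) ≤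
        (1 + ε) * x * (ε * x) := by
      have h4 : (((Aw.sigma (fun a => nb C2 a)).image (fun p => (p.1, p.2))).card : ℝ) ≤
          ((Aw.sigma (fun a => nb C2 a)).card : ℝ) := by exact_mod_cast card_image_le
      refine h4.trans ((pairs_le Aw _ (ε * x) (fun a ha => hC2 a (hAA a ha))).trans ?_)
      exact mul_le_mul_of_nonneg_right hG hεx.le
    have h4 : ((mis (HG G Cf C2 A) Aw).card : ℝ) ≤
        ((mis (HG G Cf C2 A) M).card : ℝ) := by
      exact_mod_cast card_le_card (mis_mono _ hAM)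
    have h5 : ((mis G Aw).card : ℝ) ≤ (mis (HG G Cf C2 A) Aw).card +
        ((((B.sigma (fun a => nb Cf a ∩ A)).image (fun p => (p.1, p.2))).card : ℝ) +
        (((Aw.sigma (fun a => nb C2 a)).image (fun p => (p.1, p.2))).card : ℝ)) := by
      exact_mod_cast h1
    have hxx : 0 < x ^ 2 := by positivity
    have h6 : (1 + ε) * x * (ε * x) ≤ c / 8 * x ^ 2 := by
      have h7 : (1 + ε) * ε ≤ c / 8 := by nlinarith
      have h8 : (1 + ε) * x * (ε * x) = (1 + ε) * ε * x ^ 2 := by ring
      rw [h8]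
      exact mul_le_mul_of_nonneg_right h7 hxx.le
    have h9 : c * ξ / 64 * x ^ 2 ≤ c / 2 * x ^ 2 := by
      apply mul_le_mul_of_nonneg_right _ hxx.le
      nlinarith
    nlinarith
  · by_cases hMc : ((M.card : ℝ)) ≤ (1 - ξ / 2) * x
    · right
      nlinarith
    left
    push Not at hBc hMc
    have hsub : (B.sigma (fun a => (M \ nb (HG G Cf C2 A) a).erase a)).image (fun p => (p.1, p.2)) ⊆
        mis (HG G Cf C2 A) M := by
      rintro ⟨a, b⟩ hab
      simp only [mem_image, mem_sigma] at hab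
      obtain ⟨⟨a', b'⟩, ⟨ha, hb⟩, he⟩ := hab
      simp only [Prod.mk.injEq] at he
      obtain ⟨rfl, rfl⟩ := he
      dsimp only at ha hb ⊢
      rw [mem_erase, mem_sdiff] at hb
      unfold mis
      simp only [mem_filter, mem_product]
      exact ⟨⟨hAM (mem_filter.1 ha).1, hb.2.1⟩, fun h => hb.1 h.symm,
        fun h => hb.2.2 ((mem_nb _ _ _).2 h)⟩
    have hinj : ((B.sigma (fun a => (M \ nb (HG G Cf C2 A) a).erase a)).image
        (fun p => (p.1, p.2))).card = (B.sigma (fun a => (M \ nb (HG G Cf C2 A) a).erase a)).card := by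
      apply card_image_of_injective
      rintro ⟨a, b⟩ ⟨a', b'⟩ h
      simp only [Prod.mk.injEq] at h
      obtain ⟨rfl, rfl⟩ := h
      rfl
    have h1 := card_le_card hsub
    rw [hinj] at h1
    have h2 := pairs_ge B (fun a => (M \ nb (HG G Cf C2 A) a).erase a) (ξ / 8 * x) (by
      intro a ha
      rw [hBdef, mem_filter] at ha
      have h3 := hbig a (hAA a ha.1) ha.2
      have h4 := hC2 a (hAA a ha.1)
      have h5 := nbH_card G Cf C2 A a
      have h6 : (M.card : ℝ) ≤ ((M \ nb (HG G Cf C2 A) a).erase a).card + 1 +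
          (nb (HG G Cf C2 A) a).card := by
        have h7 : M.card ≤ (M \ nb (HG G Cf C2 A) a).card + (nb (HG G Cf C2 A) a).card := by
          have := Finset.card_le_card (show M ⊆ (M \ nb (HG G Cf C2 A) a) ∪ nb (HG G Cf C2 A) a by
            intro u hu
            rw [mem_union, mem_sdiff]
            by_cases h : u ∈ nb (HG G Cf C2 A) a
            · exact Or.inr h
            · exact Or.inl ⟨hu, h⟩)
          exact this.trans (card_union_le _ _)
        have h8 : (M \ nb (HG G Cf C2 A) a).card ≤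
            ((M \ nb (HG G Cf C2 A) a).erase a).card + 1 := by
          have := Finset.pred_card_le_card_erase (s := M \ nb (HG G Cf C2 A) a) (a := a)
          omega
        have h9 : M.card ≤ ((M \ nb (HG G Cf C2 A) a).erase a).card + 1 +
          (nb (HG G Cf C2 A) a).card := by omega
        exact_mod_cast h9
      nlinarith)
    have h3 : ((B.sigma (fun a => (M \ nb (HG G Cf C2 A) a).erase a)).card : ℝ) ≤
        ((mis (HG G Cf C2 A) M).card : ℝ) := by exact_mod_cast h1
    refine le_trans ?_ (h2.trans h3)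
    have h4 : c / 8 * x * (ξ / 8 * x) ≤ B.card * (ξ / 8 * x) :=
      mul_le_mul_of_nonneg_right hBc.le (by positivity)
    nlinarith

end graph

/-- the logarithm of the degree bound -/
theorem log_bound (d : ℕ) (Δ : ℕ) (hd : 16 ≤ d) (h1 : 1 ≤ Δ) (h : Δ ≤ 2 * d) :
    Real.log Δ ^ 2 ≤ 2 * Real.log d ^ 2 := by
  have hd0 : (0 : ℝ) < d := by
    have : 0 < d := by omega
    exact_mod_cast this
  have hΔ0 : (0 : ℝ) < Δ := by exact_mod_cast h1
  have h2 : (Δ : ℝ) ≤ 2 * d := by exact_mod_cast h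
  have h3 : Real.log Δ ≤ Real.log 2 + Real.log d := by
    rw [← Real.log_mul (by norm_num) hd0.ne']
    exact Real.log_le_log hΔ0 h2
  have h4 : 4 * Real.log 2 ≤ Real.log d := by
    have : 4 * Real.log 2 = Real.log ((2 : ℝ) ^ 4) := by
      rw [Real.log_pow]
      norm_num
    rw [this]
    apply Real.log_le_log (by norm_num)
    have : (16 : ℝ) ≤ d := by exact_mod_cast hd
    linarith
  have h5 : 0 ≤ Real.log Δ := Real.log_natCast_nonneg Δ
  have h6 : 0 ≤ Real.log 2 := Real.log_nonneg (by norm_num)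
  nlinarith

section main
variable {V : Type u} [Fintype V]

theorem chunk_sum {Q C : Type} [Fintype Q] (cls : V → Q) (P : Q → Finset C)
    (Pd : ∀ q q', q ≠ q' → Disjoint (P q) (P q')) (fq : Q → V → C) (f : V → C)
    (hf : ∀ v, f v = fq (cls v) v) (hP : ∀ q v, fq q v ∈ P q) (S : Finset V) (κ1 : ℝ)
    (h : ∀ q, κ1 * ((S ∩ cq cls q).card : ℝ) ≤ (((S ∩ cq cls q).image (fq q)).card : ℝ)) :
    κ1 * (S.card : ℝ) ≤ ((S.image f).card : ℝ) := by
  have hcard : S.card = ∑ q : Q, (S ∩ cq cls q).card := by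
    rw [card_eq_sum_card_fiberwise (f := cls) (t := univ) (fun _ _ => mem_coe.2 (mem_univ _))]
    apply sum_congr rfl
    intro q _
    congr 1
    ext v
    simp [cq]
  have himg : ∑ q : Q, ((S ∩ cq cls q).image (fq q)).card ≤ (S.image f).card := by
    rw [← card_biUnion]
    · apply card_le_card
      intro y hy
      rw [mem_biUnion] at hy
      obtain ⟨q, _, hy⟩ := hy
      rw [mem_image] at hy
      obtain ⟨v, hv, rfl⟩ := hy
      rw [mem_inter] at hv
      have : cls v = q := by
        have := hv.2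
        simpa [cq] using this
      rw [mem_image]
      exact ⟨v, hv.1, by rw [hf, this]⟩
    · intro q _ q' _ hqq
      apply Disjoint.mono _ _ (Pd q q' hqq)
      · intro y hy
        obtain ⟨v, _, rfl⟩ := mem_image.1 hy
        exact hP q v
      · intro y hy
        obtain ⟨v, _, rfl⟩ := mem_image.1 hy
        exact hP q' v
  calc κ1 * (S.card : ℝ) = ∑ q : Q, κ1 * ((S ∩ cq cls q).card : ℝ) := by
        rw [hcard]
        push_cast
        rw [mul_sum]
    _ ≤ ∑ q : Q, (((S ∩ cq cls q).image (fq q)).card : ℝ) := sum_le_sum (fun q _ => h q)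
    _ ≤ ((S.image f).card : ℝ) := by exact_mod_cast himg

end main

/-- **VOUT** -/
theorem stmt_VOUT (hS : Stmt_SPVE.{u}) : Stmt_VOUT.{u} := by
  obtain ⟨κ1, hκ1, hκ1', hS⟩ := hS
  refine ⟨κ1, hκ1, hκ1', ?_⟩
  intro c ξ κ' hc hc1 hξ hξ1 hκ' hκξ hκc
  obtain ⟨κS, Δ0, hκS, hκS1, hS⟩ := hS (c * ξ / 256) (by positivity)
  refine ⟨min (κS / 2) (κ' / 8), lt_min (by positivity) (by positivity), ?_⟩
  intro N hN
  have hε0 : 0 < min (κS / 16) (κ' / 8) := lt_min (by positivity) (by positivity)
  set ε : ℝ := min (κS / 16) (κ' / 8) with hε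
  set κ : ℝ := min (κS / 2) (κ' / 8) with hκ
  set X : ℝ := Δ0 + 8 / ξ + 100 / κ' + 100 / κS + 4 * N + 100 with hX
  refine ⟨ε, ⌈N * X⌉₊ + 16, hε0, ?_⟩
  intro V _ Q C _ G Cf C2 d O cls P F I _ Ch hd hQ h
  have hNR : (0 : ℝ) < N := by exact_mod_cast hN
  have hX0 : 0 < X := by positivity
  set x : ℝ := d / N with hx
  have hxd : N * x = d := by
    rw [hx]
    field_simp
  have hxX : X ≤ x := by
    rw [hx, le_div_iff₀ hNR]
    have h1 : (N : ℝ) * X ≤ (⌈N * X⌉₊ : ℝ) := Nat.le_ceil _
    have h2 : ((⌈N * X⌉₊ + 16 : ℕ) : ℝ) ≤ d := by exact_mod_cast hd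
    push_cast at h2
    linarith
  have q1 : (0 : ℝ) ≤ Δ0 := Nat.cast_nonneg _
  have q2 : 0 < 8 / ξ := by positivity
  have q3 : 0 < 100 / κ' := by positivity
  have q4 : 0 < 100 / κS := by positivity
  have x1 : (Δ0 : ℝ) ≤ x := by linarith
  have x2 : 8 / ξ ≤ x := by linarith
  have x3 : 100 ≤ κ' * x := by
    have : 100 / κ' ≤ x := by linarith
    rw [div_le_iff₀ hκ'] at this
    linarith
  have x4 : 100 ≤ κS * x := by
    have : 100 / κS ≤ x := by linarith
    rw [div_le_iff₀ hκS] at this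
    linarith
  have x5 : 4 * (N : ℝ) ≤ x := by linarith
  have x6 : 100 ≤ x := by linarith
  have x0 : 0 < x := by linarith
  have ε1 : ε ≤ κS / 16 := min_le_left _ _
  have ε2 : ε ≤ κ' / 8 := min_le_right _ _
  have κ2 : κ ≤ κS / 2 := min_le_left _ _
  have κ3 : κ ≤ κ' / 8 := min_le_right _ _
  set Δ : ℕ := ⌈(1 + 2 * ε) * x⌉₊ with hΔ
  have hΔ1 : (1 + 2 * ε) * x ≤ Δ := Nat.le_ceil _
  have hΔ2 : (Δ : ℝ) ≤ (1 + 2 * ε) * x + 1 := (Nat.ceil_lt_add_one (by positivity)).le
  have hεx : ε * x ≤ κS / 16 * x := mul_le_mul_of_nonneg_right ε1 x0.le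
  have hεx0 : 0 < ε * x := by positivity
  have hΔx : x ≤ Δ := by nlinarith
  have hΔ3 : (Δ : ℝ) ≤ 2 * x := by nlinarith
  have hdN : (N : ℝ) * x = d := hxd
  -- bounds in terms of `x`
  have toX : ∀ (a : ℝ) (y : ℝ), (N : ℝ) * a ≤ y * d → a ≤ y * x := by
    intro a y hay
    rw [← hdN] at hay
    have : (N : ℝ) * a ≤ N * (y * x) := by linarith
    exact le_of_mul_le_mul_left this hNR
  set A : Q → Finset V := fun q => O ∩ cq cls q with hA
  have hAO : ∀ q, ∀ v ∈ A q, v ∈ O := fun q v hv => (mem_inter.1 hv).1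
  have hAc : ∀ q, ∀ v ∈ A q, cls v = q := by
    intro q v hv
    have := (mem_inter.1 hv).2
    simpa [cq] using this
  have hGd : ∀ q, ∀ v ∈ A q, ((nb G v ∩ A q).card : ℝ) ≤ (1 + ε) * x := by
    intro q v hv
    have h1 := h.deg v (hAO q v hv)
    rw [hAc q v hv, hQ] at h1
    exact toX _ _ h1
  have hC2 : ∀ v ∈ O, ((nb C2 v).card : ℝ) ≤ ε * x := by
    intro v hv
    have h1 := h.C2d v hv
    rw [hQ] at h1
    exact toX _ _ h1
  have hbig : ∀ q, ∀ v ∈ A q, (∃ u ∈ A q, Cf.Adj v u) →
      ((nb G v ∩ A q).card : ℝ) + (nb Cf v ∩ A q).card ≤ (1 - ξ) * x := by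
    rintro q v hv ⟨u, hu, huv⟩
    have h1 := h.big v (hAO q v hv) u (hAO q u hu) huv
    rw [hAc q v hv, hQ] at h1
    exact toX _ _ h1
  have hPl : ∀ q, (1 - κ) * x ≤ ((P q).card : ℝ) := by
    intro q
    have h1 := h.Pl q
    rw [hQ] at h1
    rw [← hdN] at h1
    have : (N : ℝ) * ((1 - κ) * x) ≤ N * ((P q).card : ℝ) := by linarith
    exact le_of_mul_le_mul_left this hNR
  have hPu : ∀ q, ((P q).card : ℝ) ≤ 3 / 2 * x := by
    intro q
    have h1 : 2 * ((N : ℝ) * ((P q).card : ℝ)) ≤ 3 * d := by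
      have := h.Pu q
      rw [hQ] at this
      exact_mod_cast this
    apply toX
    linarith
  set Fq : Q → V → Finset C := fun q v => if v ∈ A q then F v else ∅ with hFq
  have hFq4 : ∀ q v, ((Fq q v).card : ℝ) ≤ ε * x := by
    intro q v
    simp only [hFq]
    split_ifs with hv
    · have h1 := h.Fc v (hAO q v hv)
      rw [hQ] at h1
      exact toX _ _ h1
    · simp only [card_empty, Nat.cast_zero]
      exact hεx0.le
  -- the colouring of one class
  have hclass : ∀ q : Q, ∃ f : V → C, (∀ v, f v ∈ P q ∧ f v ∉ Fq q v) ∧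
      (∀ v w, (HG G Cf C2 (A q)).Adj v w → f v ≠ f w) ∧
      ∀ i, κ1 * ((Ch i ∩ cq cls q).card : ℝ) ≤ (((Ch i ∩ cq cls q).image f).card : ℝ) := by
    intro q
    apply hS (HG G Cf C2 (A q)) Δ C (P q) (Fq q) I (fun i => Ch i ∩ cq cls q)
    · have : (Δ0 : ℝ) ≤ Δ := by linarith
      exact_mod_cast this
    · intro v
      by_cases hv : v ∈ A q
      · have h1 := nbH_card G Cf C2 (A q) v
        have h2 := hC2 v (hAO q v hv)
        have h3 := hGd q v hv
        have h4 : ((nb (HG G Cf C2 (A q)) v).card : ℝ) ≤ (1 + 2 * ε) * x := by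
          by_cases hB : ∃ u ∈ A q, Cf.Adj v u
          · have h5 := hbig q v hv hB
            nlinarith
          · have hCf0 : nb Cf v ∩ A q = ∅ := by
              ext u
              simp only [mem_inter, mem_nb, notMem_empty, iff_false]
              rintro ⟨h1, h2⟩
              exact hB ⟨u, h2, h1⟩
            rw [hCf0, card_empty] at h1
            push_cast at h1
            linarith
        have h5 : ((nb (HG G Cf C2 (A q)) v).card : ℝ) ≤ Δ := h4.trans hΔ1
        exact_mod_cast h5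
      · rw [nbH_out G Cf C2 (A q) v hv]
        simp
    · refine le_trans ?_ (hPl q)
      have h1 : (1 - κS) * (Δ : ℝ) ≤ (1 - κS) * ((1 + 2 * ε) * x + 1) :=
        mul_le_mul_of_nonneg_left hΔ2 (by linarith)
      have h2 : κ * x ≤ κS / 2 * x := mul_le_mul_of_nonneg_right κ2 x0.le
      nlinarith
    · have h1 : ((P q).card : ℝ) ≤ 2 * Δ := by linarith [hPu q]
      exact_mod_cast h1
    · intro v
      have h1 := hFq4 q v
      have h2 : 5 * ((Fq q v).card : ℝ) ≤ 2 * Δ := by nlinarith
      exact_mod_cast h2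
    · intro v
      by_cases hv : v ∈ A q
      · have hs := h.sps v (hAO q v hv)
        rw [hAc q v hv, hQ] at hs
        have hs' : ((nb G v ∩ A q).card : ℝ) ≤ (1 - κ') * x ∨
            c * x ^ 2 ≤ ((mis G (nb G v ∩ A q)).card : ℝ) := by
          rcases hs with hs | hs
          · exact Or.inl (toX _ _ hs)
          · right
            rw [← hdN] at hs
            have h1 : (N : ℝ) ^ 2 * (c * x ^ 2) ≤ (N : ℝ) ^ 2 *
                ((mis G (nb G v ∩ A q)).card : ℝ) := by
              refine le_trans (le_of_eq ?_) hs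
              ring
            exact le_of_mul_le_mul_left h1 (by positivity)
        have hk := key G Cf C2 (A q) x c ξ κ' ε hc hc1 hξ hξ1 hκ' hκξ hκc hε0 ε2 x2
          (fun v hv => hC2 v (hAO q v hv)) (hbig q) v hv (hGd q v hv) hs'
        have hF4 : ((Fq q v).card : ℝ) ≤ ε * x := hFq4 q v
        have hε4 : ε * x ≤ κ' / 8 * x := mul_le_mul_of_nonneg_right ε2 x0.le
        rcases hk with hk | hk
        · left
          constructor
          · refine le_trans ?_ hk
            have h1 : (Δ : ℝ) ^ 2 ≤ (2 * x) ^ 2 := pow_le_pow_left₀ (Nat.cast_nonneg _) hΔ3 2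
            have h2 : c * ξ / 256 * (Δ : ℝ) ^ 2 ≤ c * ξ / 256 * (2 * x) ^ 2 :=
              mul_le_mul_of_nonneg_left h1 (by positivity)
            refine h2.trans (le_of_eq ?_)
            ring
          · have h1 : κS * x ≤ κS * Δ := mul_le_mul_of_nonneg_left hΔx hκS.le
            linarith
        · right
          have h1 : κ * x ≤ κ' / 8 * x := mul_le_mul_of_nonneg_right κ3 x0.le
          have h2 := hPl q
          have h3 : ((nb (HG G Cf C2 (A q)) v).card : ℝ) + (Fq q v).card < (P q).card := by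
            nlinarith
          exact_mod_cast h3
      · right
        rw [nbH_out G Cf C2 (A q) v hv]
        simp only [hFq, if_neg hv, card_empty]
        have h1 : κ * x ≤ κS / 2 * x := mul_le_mul_of_nonneg_right κ2 x0.le
        have h2 := hPl q
        have h3 : (0 : ℝ) < (P q).card := by nlinarith
        have h4 : 0 < (P q).card := by exact_mod_cast h3
        simpa using h4
    · refine ⟨?_, ?_, ?_⟩
      · intro i
        refine le_trans ?_ (h.Chl i q)
        apply log_bound d Δ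
        · omega
        · have : (1 : ℝ) ≤ Δ := by linarith
          exact_mod_cast this
        · have h1 : x ≤ d := by
            rw [hx]
            apply div_le_self (Nat.cast_nonneg _)
            exact_mod_cast hN
          have : (Δ : ℝ) ≤ 2 * d := by linarith
          exact_mod_cast this
      · intro i
        have h1 : (N : ℝ) * ((Ch i ∩ cq cls q).card : ℝ) ≤ 1 * d := by
          have := h.Chu i q
          rw [hQ] at this
          rw [one_mul]
          exact_mod_cast this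
        have h2 := toX _ _ h1
        have h3 : ((Ch i ∩ cq cls q).card : ℝ) ≤ Δ := by linarith
        exact_mod_cast h3
      · intro w
        have hsub : univ.filter (fun i => w ∈ Ch i ∩ cq cls q ∨
            ∃ y ∈ Ch i ∩ cq cls q, (HG G Cf C2 (A q)).Adj w y) ⊆
            (insert w (nb (HG G Cf C2 (A q)) w)).biUnion
              (fun y => univ.filter (fun i => y ∈ Ch i)) := by
          intro i hi
          simp only [mem_filter, mem_univ, true_and] at hi
          simp only [mem_biUnion, mem_filter, mem_univ, true_and]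
          rcases hi with hi | ⟨y, hy, hwy⟩
          · exact ⟨w, mem_insert_self _ _, (mem_inter.1 hi).1⟩
          · exact ⟨y, mem_insert_of_mem ((mem_nb _ _ _).2 hwy), (mem_inter.1 hy).1⟩
        have hdeg : (nb (HG G Cf C2 (A q)) w).card ≤ Δ := by
          by_cases hv : w ∈ A q
          · have h1 := nbH_card G Cf C2 (A q) w
            have h2 := hC2 w (hAO q w hv)
            have h3 := hGd q w hv
            have h4 : ((nb (HG G Cf C2 (A q)) w).card : ℝ) ≤ (1 + 2 * ε) * x := by
              by_cases hB : ∃ u ∈ A q, Cf.Adj w u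
              · have h5 := hbig q w hv hB
                nlinarith
              · have hCf0 : nb Cf w ∩ A q = ∅ := by
                  ext u
                  simp only [mem_inter, mem_nb, notMem_empty, iff_false]
                  rintro ⟨h1, h2⟩
                  exact hB ⟨u, h2, h1⟩
                rw [hCf0, card_empty] at h1
                push_cast at h1
                linarith
            have h5 : ((nb (HG G Cf C2 (A q)) w).card : ℝ) ≤ Δ := h4.trans hΔ1
            exact_mod_cast h5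
          · rw [nbH_out G Cf C2 (A q) w hv]
            simp
        have h1 := (card_le_card hsub).trans (card_biUnion_le_card_mul _ _ d
          (fun y _ => h.Chn y))
        have h2 : (insert w (nb (HG G Cf C2 (A q)) w)).card ≤ Δ + 1 :=
          (card_insert_le _ _).trans (by omega)
        refine h1.trans ((Nat.mul_le_mul_right d h2).trans ?_)
        have h3 : (4 * N : ℝ) ≤ Δ := by linarith
        have h4 : 4 * N ≤ Δ := by exact_mod_cast h3
        have h5 : (d : ℝ) ≤ N * Δ := by
          rw [← hdN]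
          exact mul_le_mul_of_nonneg_left hΔx hNR.le
        have h6 : d ≤ N * Δ := by exact_mod_cast h5
        have h7 : 1 ≤ Δ := by
          have : (1 : ℝ) ≤ Δ := by linarith
          exact_mod_cast this
        calc (Δ + 1) * d ≤ (2 * Δ) * (N * Δ) := Nat.mul_le_mul (by omega) h6
          _ = (2 * N) * Δ ^ 2 := by ring
          _ ≤ Δ * Δ ^ 2 := Nat.mul_le_mul_right _ (by omega)
          _ = Δ ^ 3 := by ring
  choose fq hf1 hf2 hf3 using hclass
  refine ⟨fun v => fq (cls v) v, ?_, ?_, ?_⟩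
  · intro v hv
    have hvA : v ∈ A (cls v) := by
      simp only [hA, mem_inter]
      exact ⟨hv, by simp [cq]⟩
    have h1 := hf1 (cls v) v
    refine ⟨h1.1, ?_⟩
    have h2 := h1.2
    simp only [hFq, if_pos hvA] at h2
    exact h2
  · intro v hv w hw hvw
    by_cases hcl : cls v = cls w
    · have hvA : v ∈ A (cls v) := by
        simp only [hA, mem_inter]
        exact ⟨hv, by simp [cq]⟩
      have hwA : w ∈ A (cls v) := by
        simp only [hA, mem_inter]
        exact ⟨hw, by simp [cq, hcl]⟩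
      have h1 := hf2 (cls v) v w ⟨hvA, hwA, hvw⟩
      simp only
      rw [← hcl]
      exact h1
    · intro he
      simp only at he
      have h1 := (hf1 (cls v) v).1
      have h2 := (hf1 (cls w) w).1
      rw [he] at h1
      exact disjoint_left.1 (h.Pd _ _ hcl) h1 h2
  · intro i
    exact chunk_sum cls P h.Pd fq _ (fun v => rfl) (fun q v => (hf1 q v).1) (Ch i) κ1
      (fun q => hf3 q i)

end Pool.Agent.Work.MP_db9399_vt.helper14
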